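import Pool.Agent.L5helper16.LG.Defs

/-!
# B4: elementary properties of `ff`
-/

set_option autoImplicit false
set_option linter.all false

namespace Pool.Agent.L5helper24.LG

open Finset Pool.Agent.L5helper16.LG

theorem rec_all (h2 : St_B2) (Q : Finset ℕ) (p : ℕ) (hp : p ∉ Q) (hp0 : p ≠ 0) (m : ℕ) :
    ff (insert p Q) m = (1 - (m : ℝ) * (1 / p)) * ff Q m + (m : ℝ) * (1 / p) * ff Q (m - 1) := by
  obtain ⟨h0, -, h3⟩ := h2
  cases m with
  | zero => rw [h0, h0]; simp
  | succ m =>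
    rw [h3 Q p hp hp0 m, Nat.add_sub_cancel]
    push_cast
    ring

/-- the properties which are proved by induction -/
structure Prp (M : ℕ) (κ : ℝ) (f : ℕ → ℝ) (V : ℝ) : Prop where
  nonneg : ∀ m, m ≤ M → 0 ≤ f m
  le_one : ∀ m, m ≤ M → f m ≤ 1
  anti : ∀ m, m + 1 ≤ M → f (m + 1) ≤ f m
  diff : ∀ m, m + 1 ≤ M → f m - f (m + 1) ≤ κ ^ m * V * f m
  mul : ∀ m m', m + m' ≤ M → f (m + m') ≤ f m * f m'

theorem Prp.anti' {M : ℕ} {κ : ℝ} {f : ℕ → ℝ} {V : ℝ} (hf : Prp M κ f V) (m : ℕ) (hm : m ≤ M) :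
    f m ≤ f (m - 1) := by
  cases m with
  | zero => exact le_refl _
  | succ m => exact hf.anti m hm

theorem Prp.step {M : ℕ} {κ : ℝ} {f f' : ℕ → ℝ} {V h : ℝ} (hf : Prp M κ f V) (hV : 0 ≤ V)
    (h0 : 0 ≤ h) (hM : (M : ℝ) * h ≤ 1) (hκ0 : 0 ≤ κ) (hκ : 1 ≤ κ * (1 - h)) (h1 : h ≤ 1)
    (hr : ∀ m : ℕ, f' m = (1 - (m : ℝ) * h) * f m + (m : ℝ) * h * f (m - 1)) :
    Prp M κ f' ((1 - h) * V) := by
  have hmh : ∀ m : ℕ, m ≤ M → 0 ≤ 1 - (m : ℝ) * h := by
    intro m hm
    have : (m : ℝ) * h ≤ M * h := mul_le_mul_of_nonneg_right (by exact_mod_cast hm) h0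
    linarith
  have hmh0 : ∀ m : ℕ, 0 ≤ (m : ℝ) * h := fun m => mul_nonneg (Nat.cast_nonneg m) h0
  have hpos' : ∀ m, m ≤ M → 0 ≤ f' m := fun m hm => by
    rw [hr]
    exact add_nonneg (mul_nonneg (hmh m hm) (hf.nonneg m hm))
      (mul_nonneg (hmh0 m) (hf.nonneg _ (by omega)))
  have key : ∀ m : ℕ, f' m - f' (m + 1) = (1 - ((m : ℝ) + 1) * h) * (f m - f (m + 1)) +
      (m : ℝ) * h * (f (m - 1) - f m) := by
    intro m
    rw [hr, hr, Nat.add_sub_cancel]
    push_cast
    ring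
  have hsucc : ∀ m : ℕ, m + 1 ≤ M → 0 ≤ 1 - ((m : ℝ) + 1) * h := by
    intro m hm
    have := hmh (m + 1) hm
    push_cast at this
    exact this
  refine ⟨hpos', fun m hm => ?_, fun m hm => ?_, fun m hm => ?_, fun m m' hm => ?_⟩
  · rw [hr]
    have a1 := mul_le_mul_of_nonneg_left (hf.le_one m hm) (hmh m hm)
    have a2 := mul_le_mul_of_nonneg_left (hf.le_one (m - 1) (by omega)) (hmh0 m)
    linarith
  · have a1 := mul_nonneg (hsucc m hm) (sub_nonneg.2 (hf.anti m hm))
    have a2 := mul_nonneg (hmh0 m) (sub_nonneg.2 (hf.anti' m (by omega)))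
    have a3 := key m
    linarith
  · rw [key]
    have a1 : (1 - ((m : ℝ) + 1) * h) * (f m - f (m + 1)) ≤
        (1 - ((m : ℝ) + 1) * h) * (κ ^ m * V * f m) :=
      mul_le_mul_of_nonneg_left (hf.diff m hm) (hsucc m hm)
    have b0 : 0 ≤ κ ^ m * V * f m :=
      mul_nonneg (mul_nonneg (pow_nonneg hκ0 m) hV) (hf.nonneg m (by omega))
    have a2 : (1 - ((m : ℝ) + 1) * h) * (κ ^ m * V * f m) ≤
        ((1 - h) * (1 - (m : ℝ) * h)) * (κ ^ m * V * f m) := by
      refine mul_le_mul_of_nonneg_right ?_ b0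
      have : 0 ≤ (m : ℝ) * h * h := mul_nonneg (hmh0 m) h0
      nlinarith
    have a3 : (m : ℝ) * h * (f (m - 1) - f m) ≤
        ((m : ℝ) * h) * (κ ^ m * ((1 - h) * V) * f (m - 1)) := by
      cases m with
      | zero => simp
      | succ k =>
        rw [Nat.add_sub_cancel]
        refine mul_le_mul_of_nonneg_left ?_ (hmh0 _)
        refine (hf.diff k (by omega)).trans ?_
        have c0 : 0 ≤ κ ^ k * V * f k :=
          mul_nonneg (mul_nonneg (pow_nonneg hκ0 k) hV) (hf.nonneg k (by omega))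
        have c1 := mul_le_mul_of_nonneg_left hκ c0
        rw [pow_succ]
        nlinarith
    have a4 : κ ^ m * ((1 - h) * V) * f' m =
        ((1 - h) * (1 - (m : ℝ) * h)) * (κ ^ m * V * f m) +
        ((m : ℝ) * h) * (κ ^ m * ((1 - h) * V) * f (m - 1)) := by
      rw [hr]
      ring
    linarith
  · have e1 : f' (m + m') ≤ (1 - ((m : ℝ) + m') * h) * (f m * f m') +
        (m : ℝ) * h * (f (m - 1) * f m') + (m' : ℝ) * h * (f m * f (m' - 1)) := by
      have b1 : (m : ℝ) * h * f (m + m' - 1) ≤ (m : ℝ) * h * (f (m - 1) * f m') := by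
        cases m with
        | zero => simp
        | succ k =>
          refine mul_le_mul_of_nonneg_left ?_ (hmh0 _)
          have := hf.mul k m' (by omega)
          have e : k + 1 + m' - 1 = k + m' := by omega
          rw [e, Nat.add_sub_cancel]
          exact this
      have b2 : (m' : ℝ) * h * f (m + m' - 1) ≤ (m' : ℝ) * h * (f m * f (m' - 1)) := by
        cases m' with
        | zero => simp
        | succ k =>
          refine mul_le_mul_of_nonneg_left ?_ (hmh0 _)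
          have := hf.mul m k (by omega)
          have e : m + (k + 1) - 1 = m + k := by omega
          rw [e, Nat.add_sub_cancel]
          exact this
      have b3 : (1 - ((m : ℝ) + m') * h) * f (m + m') ≤
          (1 - ((m : ℝ) + m') * h) * (f m * f m') := by
        refine mul_le_mul_of_nonneg_left (hf.mul m m' hm) ?_
        have := hmh (m + m') hm
        push_cast at this
        exact this
      rw [hr]
      push_cast
      linarith
    have e2 : 0 ≤ ((m : ℝ) * h) * ((m' : ℝ) * h) * ((f (m - 1) - f m) * (f (m' - 1) - f m')) :=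
      mul_nonneg (mul_nonneg (hmh0 m) (hmh0 m'))
        (mul_nonneg (sub_nonneg.2 (hf.anti' m (by omega))) (sub_nonneg.2 (hf.anti' m' (by omega))))
    have e3 : f' m * f' m' = (1 - ((m : ℝ) + m') * h) * (f m * f m') +
        (m : ℝ) * h * (f (m - 1) * f m') + (m' : ℝ) * h * (f m * f (m' - 1)) +
        ((m : ℝ) * h) * ((m' : ℝ) * h) * ((f (m - 1) - f m) * (f (m' - 1) - f m')) := by
      rw [hr, hr]
      ring
    linarith

theorem VV_nonneg (Q : Finset ℕ) : 0 ≤ VV Q := by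
  unfold VV
  refine Finset.prod_nonneg fun p _ => ?_
  rcases Nat.eq_zero_or_pos p with rfl | hp
  · simp
  · have : (1 : ℝ) ≤ p := by exact_mod_cast hp
    have h1 : 1 / (p : ℝ) ≤ 1 := by
      rw [div_le_one (by linarith)]
      exact this
    linarith

theorem prp (h2 : St_B2) (M : ℕ) (hM : 2 ≤ M) (Q : Finset ℕ) (hQ : ∀ p ∈ Q, M ≤ p) :
    Prp M ((1 - 1 / (M : ℝ))⁻¹) (ff Q) (VV Q) := by
  have hM' : (2 : ℝ) ≤ M := by exact_mod_cast hM
  have hM0 : (0 : ℝ) < M := by linarith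
  have hM1 : 1 / (M : ℝ) ≤ 1 / 2 := one_div_le_one_div_of_le (by norm_num) hM'
  have hκ0 : 0 < 1 - 1 / (M : ℝ) := by linarith
  induction Q using Finset.induction_on with
  | empty =>
    have h0 := h2.1 ∅
    have h1 := h2.2.1
    have hv : VV ∅ = 1 := by unfold VV; simp
    have hf : ∀ m, ff ∅ m = if m = 0 then 1 else 0 := by
      intro m
      cases m with
      | zero => rw [h0]; simp
      | succ m => rw [h1]; simp
    refine ⟨fun m _ => ?_, fun m _ => ?_, fun m _ => ?_, fun m _ => ?_, fun m m' _ => ?_⟩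
    · rw [hf]; split_ifs <;> norm_num
    · rw [hf]; split_ifs <;> norm_num
    · rw [h1, hf]; split_ifs <;> norm_num
    · rw [h1, hf, hv]
      by_cases hm : m = 0
      · subst hm
        simp
      · rw [if_neg hm]; simp
    · rw [hf, hf, hf]
      by_cases hm : m = 0 <;> by_cases hm' : m' = 0 <;> simp [hm, hm']
  | insert p Q hp ih =>
    have hpM := hQ p (Finset.mem_insert_self _ _)
    have ih := ih fun q hq => hQ q (Finset.mem_insert_of_mem hq)
    have hpM' : (M : ℝ) ≤ p := by exact_mod_cast hpM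
    have hp0 : (0 : ℝ) < p := by linarith
    have hh : 1 / (p : ℝ) ≤ 1 / (M : ℝ) := one_div_le_one_div_of_le hM0 hpM'
    have hV : VV (insert p Q) = (1 - 1 / (p : ℝ)) * VV Q := by
      unfold VV
      rw [Finset.prod_insert hp]
    rw [hV]
    refine ih.step (VV_nonneg Q) (by positivity) ?_ (le_of_lt (inv_pos.2 hκ0)) ?_ ?_
      (rec_all h2 Q p hp (by omega))
    · rw [mul_one_div, div_le_one hp0]
      exact hpM'
    · rw [inv_mul_eq_div, le_div_iff₀ hκ0]
      linarith
    · linarith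

/-- **B4.** -/
theorem b4 (h2 : St_B2) : St_B4 := by
  intro M hM Q hQ
  have hP := prp h2 M hM Q hQ
  refine ⟨fun m hm => ⟨hP.nonneg m hm, hP.le_one m hm⟩, hP.anti, fun m hm p hp hpM => ?_,
    hP.diff, hP.mul⟩
  rw [rec_all h2 Q p hp (by omega)]
  have a1 : 0 ≤ (m : ℝ) * (1 / p) * (ff Q (m - 1) - ff Q m) :=
    mul_nonneg (by positivity) (sub_nonneg.2 (hP.anti' m hm))
  linarith

end Pool.Agent.L5helper24.LG
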